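import Pool.Agent.W58.GU.Defs

/-!
Project GU: basic lemmas.
-/

namespace Pool.Agent.W58.GU
open Finset

/-! ### coordinatewise products -/

@[simp] theorem th_apply (θ : ℕ → ℚ) (f : ℕ →₀ ℚ) (a : ℕ) : th θ f a = θ a * f a := rfl

theorem th_support (θ : ℕ → ℚ) (f : ℕ →₀ ℚ) : (th θ f).support ⊆ f.support := by
  intro a ha
  rw [Finsupp.mem_support_iff] at *
  intro h0
  apply ha
  simp [h0]

theorem th_smul (θ : ℕ → ℚ) (c : ℚ) (f : ℕ →₀ ℚ) : th θ (c • f) = c • th θ f := by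
  ext a; simp; ring

theorem th_add (θ : ℕ → ℚ) (f g : ℕ →₀ ℚ) : th θ (f + g) = th θ f + th θ g := by
  ext a; simp; ring

theorem th_zero (θ : ℕ → ℚ) : th θ 0 = 0 := by ext a; simp

theorem th_sum {ι : Type} (θ : ℕ → ℚ) (S : Finset ι) (f : ι → (ℕ →₀ ℚ)) :
    th θ (∑ k ∈ S, f k) = ∑ k ∈ S, th θ (f k) := by
  classical
  induction S using Finset.induction_on with
  | empty => simp [th_zero]
  | insert a S ha ih => rw [Finset.sum_insert ha, Finset.sum_insert ha, th_add, ih]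

theorem th_th (θ η : ℕ → ℚ) (f : ℕ →₀ ℚ) : th θ (th η f) = th (fun a => θ a * η a) f := by
  ext a; simp; ring

theorem Sg.mul {θ η : ℕ → ℚ} (h : Sg θ) (h' : Sg η) : Sg (fun a => θ a * η a) := by
  intro a
  rcases h a with h1 | h1 | h1 <;> rcases h' a with h2 | h2 | h2 <;> simp [h1, h2]

theorem Lt.mono {A B A' B' : Finset ℕ} (h : Lt A B) (hA : A' ⊆ A) (hB : B' ⊆ B) : Lt A' B' :=
  fun a ha b hb => h a (hA ha) b (hB hb)

/-- the norming set is closed under changes of signs and restrictions -/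
theorem KW.th {P : Par} {w : Option ℕ} {f : ℕ →₀ ℚ} (h : KW P w f) {θ : ℕ → ℚ} (hθ : Sg θ) :
    KW P w (th θ f) := by
  induction h with
  | unit a s hs =>
    have : GU.th θ (Finsupp.single a s) = Finsupp.single a (θ a * s) := by
      ext b
      by_cases hb : a = b
      · subst hb; simp
      · simp [Finsupp.single_apply, hb]
    rw [this]
    refine KW.unit a _ ?_
    rcases hθ a with h1 | h1 | h1 <;> rcases hs with h2 | h2 | h2 <;> simp [h1, h2]
  | even i d f w hi hd hsucc hf ih =>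
    rw [th_smul, th_sum]
    refine KW.even i d (fun k => GU.th θ (f k)) w hi hd ?_ (fun k hk => ih k hk)
    intro k l hkl hl
    exact (hsucc k l hkl hl).mono (th_support _ _) (th_support _ _)
  | odd i d f idx η hi hd hsucc hη hpos h4 h0 hidx hf ih =>
    rw [th_smul, th_sum]
    have : ∀ k, GU.th θ (GU.th η (f k)) = GU.th (fun a => θ a * η a) (f k) := fun k => th_th _ _ _
    simp only [this]
    exact KW.odd i d f idx _ hi hd hsucc (Sg.mul hθ hη) hpos h4 h0 hidx hf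

theorem InK.th {P : Par} {f : ℕ →₀ ℚ} (h : InK P f) {θ : ℕ → ℚ} (hθ : Sg θ) : InK P (th θ f) := by
  obtain ⟨w, hw⟩ := h
  exact ⟨w, hw.th hθ⟩

theorem KW.neg {P : Par} {w : Option ℕ} {f : ℕ →₀ ℚ} (h : KW P w f) : KW P w (-f) := by
  have := h.th (θ := fun _ => -1) (fun _ => Or.inr (Or.inr rfl))
  have e : GU.th (fun _ => -1) f = -f := by ext a; simp
  rwa [e] at this

theorem InK.neg {P : Par} {f : ℕ →₀ ℚ} (h : InK P f) : InK P (-f) := by
  obtain ⟨w, hw⟩ := h
  exact ⟨w, hw.neg⟩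

theorem InK.single (P : Par) (a : ℕ) : InK P (Finsupp.single a 1) :=
  ⟨none, KW.unit a 1 (Or.inr (Or.inl rfl))⟩

theorem InK.zero (P : Par) : InK P 0 := by
  have := KW.unit (P := P) 0 0 (Or.inl rfl)
  rw [Finsupp.single_zero] at this
  exact ⟨none, this⟩

open Classical in
/-- the restriction of a functional or a vector to a set of coordinates -/
noncomputable def rst {R : Type} [Zero R] (A : Set ℕ) (f : ℕ →₀ R) : ℕ →₀ R :=
  f.filter (· ∈ A)

theorem rst_eq_th (A : Set ℕ) (f : ℕ →₀ ℚ) : ∃ θ, Sg θ ∧ rst A f = GU.th θ f := by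
  classical
  refine ⟨fun a => if a ∈ A then 1 else 0, fun a => by by_cases h : a ∈ A <;> simp [h], ?_⟩
  ext a
  by_cases h : a ∈ A
  · simp [rst, h]
  · simp [rst, h]

theorem KW.rst {P : Par} {w : Option ℕ} {f : ℕ →₀ ℚ} (h : KW P w f) (A : Set ℕ) :
    KW P w (rst A f) := by
  obtain ⟨θ, hθ, e⟩ := rst_eq_th A f
  rw [e]; exact h.th hθ

theorem InK.rst {P : Par} {f : ℕ →₀ ℚ} (h : InK P f) (A : Set ℕ) : InK P (rst A f) := by
  obtain ⟨w, hw⟩ := h
  exact ⟨w, hw.rst A⟩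

/-! ### the parameters -/

variable (P : Par)

theorem Par.m_pos (i : ℕ) : 0 < P.m i := by have := P.hm1 i; omega

theorem Par.two_le (i : ℕ) : 2 ≤ P.m i := by have := P.hm1 i; omega

theorem Par.m_mono : StrictMono P.m := by
  refine strictMono_nat_of_lt_succ (fun i => ?_)
  have h1 := P.hm2 i
  have h2 := P.two_le i
  nlinarith

theorem Par.n_pos (i : ℕ) : 0 < P.n i := by
  obtain ⟨a, ha, -, h⟩ := P.hn i
  have : 0 < P.m i ^ 2 * (3 * a) ^ (2 * P.m i + 1) := by
    have := P.m_pos i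
    positivity
  omega

/-! ### coordinates of functionals -/

/-- at most one of the functionals of a successive family is nonzero at a coordinate -/
theorem sum_le_of_succ {R : Type} [Field R] [LinearOrder R] [IsStrictOrderedRing R]
    (d : ℕ) (f : ℕ → (ℕ →₀ R)) (c : R)
    (hc : 0 ≤ c) (hsucc : ∀ k l, k < l → l < d → Lt (f k).support (f l).support) (a : ℕ)
    (hb : ∀ k < d, |f k a| ≤ c) : |(∑ k ∈ range d, f k) a| ≤ c := by
  rw [Finsupp.finsetSum_apply]
  by_cases h : ∃ k < d, f k a ≠ 0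
  · obtain ⟨k, hk, hka⟩ := h
    rw [Finset.sum_eq_single k]
    · exact hb k hk
    · intro l hl hlk
      rw [Finset.mem_range] at hl
      by_contra hne
      rcases lt_or_gt_of_ne hlk with h1 | h1
      · exact absurd (hsucc l k h1 hk a (Finsupp.mem_support_iff.mpr hne) a
          (Finsupp.mem_support_iff.mpr hka)) (lt_irrefl _)
      · exact absurd (hsucc k l h1 hl a (Finsupp.mem_support_iff.mpr hka) a
          (Finsupp.mem_support_iff.mpr hne)) (lt_irrefl _)
    · intro h; exact absurd (Finset.mem_range.mpr hk) h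
  · push Not at h
    rw [Finset.sum_eq_zero (fun k hk => h k (Finset.mem_range.mp hk))]
    simpa using hc

theorem KW.coord {P : Par} {w : Option ℕ} {f : ℕ →₀ ℚ} (h : KW P w f) :
    (∀ a, |f a| ≤ 1) ∧ (∀ i, w = some i → ∀ a, |f a| ≤ 1 / P.m i) := by
  have key : ∀ i : ℕ, ∀ g : ℕ →₀ ℚ, (∀ a, |g a| ≤ 1) →
      (∀ a, |((1 / (P.m i : ℚ)) • g) a| ≤ 1) ∧
      (∀ j, some i = some j → ∀ a, |((1 / (P.m i : ℚ)) • g) a| ≤ 1 / P.m j) := by
    intro i g hg
    have hm : (2 : ℚ) ≤ P.m i := by exact_mod_cast P.two_le i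
    have h1 : ∀ a, |((1 / (P.m i : ℚ)) • g) a| ≤ 1 / P.m i := by
      intro a
      rw [Finsupp.smul_apply, smul_eq_mul, abs_mul, abs_of_pos (by positivity)]
      have := hg a
      have h2 : (0 : ℚ) < 1 / P.m i := by positivity
      nlinarith
    refine ⟨fun a => le_trans (h1 a) ?_, ?_⟩
    · rw [div_le_one (by linarith)]; linarith
    · intro j hj a
      rw [← Option.some.inj hj]; exact h1 a
  induction h with
  | unit a s hs =>
    refine ⟨fun b => ?_, fun i h => by simp at h⟩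
    by_cases hb : a = b
    · subst hb
      rw [Finsupp.single_eq_same]
      rcases hs with h | h | h <;> simp [h]
    · simp [Finsupp.single_apply, hb]
  | even i d f w hi hd hsucc hf ih =>
    exact key i _ (fun a => sum_le_of_succ d f 1 zero_le_one hsucc a (fun k hk => (ih k hk).1 a))
  | odd i d f idx η hi hd hsucc hη hpos h4 h0 hidx hf ih =>
    refine key i _ (fun a => sum_le_of_succ d (fun k => GU.th η (f k)) 1 zero_le_one ?_ a ?_)
    · intro k l hkl hl
      exact (hsucc k l hkl hl).mono (th_support _ _) (th_support _ _)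
    · intro k hk
      have := (ih k hk).1 a
      show |η a * f k a| ≤ 1
      rcases hη a with h | h | h <;> simp [h, this]

/-- a functional of weight `m i` is the average of at most `n i` successive functionals -/
theorem KW.inv {P : Par} {i : ℕ} {f : ℕ →₀ ℚ} (h : KW P (some i) f) :
    ∃ (d : ℕ) (g : ℕ → (ℕ →₀ ℚ)), d ≤ P.n i ∧
      (∀ k l, k < l → l < d → Lt (g k).support (g l).support) ∧
      (∀ k, k < d → InK P (g k)) ∧ f = (1 / (P.m i : ℚ)) • ∑ k ∈ range d, g k := by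
  cases h with
  | even _ d f w hi hd hsucc hf => exact ⟨d, f, hd, hsucc, fun k hk => ⟨_, hf k hk⟩, rfl⟩
  | odd _ d f idx η hi hd hsucc hη hpos h4 h0 hidx hf =>
    exact ⟨d, fun k => GU.th η (f k), hd, fun k l hkl hl =>
      (hsucc k l hkl hl).mono (th_support _ _) (th_support _ _),
      fun k hk => ⟨_, (hf k hk).th hη⟩, rfl⟩

/-- a functional of odd weight is special -/
theorem KW.inv_odd {P : Par} {i : ℕ} {f : ℕ →₀ ℚ} (h : KW P (some i) f) (hi : i % 2 = 1) :
    ∃ (d : ℕ) (g : ℕ → (ℕ →₀ ℚ)) (idx : ℕ → ℕ) (θ : ℕ → ℚ), d ≤ P.n i ∧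
      (∀ k l, k < l → l < d → Lt (g k).support (g l).support) ∧ Sg θ ∧
      (∀ k, k < d → ∀ a, 0 ≤ g k a) ∧ idx 0 % 4 = 2 ∧ P.n i ^ 2 ≤ P.m (idx 0) ∧
      (∀ k, idx (k + 1) = P.σ ((List.range (k + 1)).map (fun l => (idx l, g l)))) ∧
      (∀ k, k < d → KW P (some (idx k)) (g k)) ∧
      f = (1 / (P.m i : ℚ)) • ∑ k ∈ range d, GU.th θ (g k) := by
  cases h with
  | even _ d f w hi' hd hsucc hf => omega
  | odd _ d f idx η hi hd hsucc hη hpos h4 h0 hidx hf =>
    exact ⟨d, f, idx, η, hd, hsucc, hη, hpos, h4, h0, hidx, hf, rfl⟩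

/-! ### the pairing -/

theorem pr_eq (f : ℕ →₀ ℚ) (x : ℕ → ℝ) {S : Finset ℕ} (h : f.support ⊆ S) :
    pr f x = ∑ a ∈ S, (f a : ℝ) * x a := by
  unfold pr
  refine Finset.sum_subset h (fun a _ ha => ?_)
  rw [Finsupp.notMem_support_iff] at ha
  simp [ha]

/-- if the vector is finitely supported, the sum can be taken over its support -/
theorem pr_eq' (f : ℕ →₀ ℚ) (x : ℕ →₀ ℝ) {S : Finset ℕ} (h : x.support ⊆ S) :
    pr f x = ∑ a ∈ S, (f a : ℝ) * x a := by
  classical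
  rw [pr_eq f x (Finset.subset_union_left (s₁ := f.support) (s₂ := S))]
  symm
  refine Finset.sum_subset Finset.subset_union_right (fun a _ ha => ?_)
  have : x a = 0 := by
    by_contra hne
    exact ha (h (Finsupp.mem_support_iff.mpr hne))
  simp [this]

theorem pr_congr {f : ℕ →₀ ℚ} {x y : ℕ → ℝ} (h : ∀ a ∈ f.support, x a = y a) : pr f x = pr f y :=
  Finset.sum_congr rfl (fun a ha => by rw [h a ha])

theorem pr_add_right (f : ℕ →₀ ℚ) (x y : ℕ → ℝ) : pr f (x + y) = pr f x + pr f y := by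
  unfold pr
  rw [← Finset.sum_add_distrib]
  exact Finset.sum_congr rfl (fun a _ => by simp [mul_add])

theorem pr_smul_right (f : ℕ →₀ ℚ) (c : ℝ) (x : ℕ → ℝ) : pr f (c • x) = c * pr f x := by
  unfold pr
  rw [Finset.mul_sum]
  exact Finset.sum_congr rfl (fun a _ => by simp; ring)

theorem pr_zero_right (f : ℕ →₀ ℚ) : pr f 0 = 0 := by simp [pr]

theorem pr_neg_right (f : ℕ →₀ ℚ) (x : ℕ → ℝ) : pr f (-x) = -pr f x := by
  have := pr_smul_right f (-1) x
  simpa using this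

theorem pr_sum_right {ι : Type} (f : ℕ →₀ ℚ) (S : Finset ι) (x : ι → ℕ → ℝ) :
    pr f (∑ k ∈ S, x k) = ∑ k ∈ S, pr f (x k) := by
  classical
  induction S using Finset.induction_on with
  | empty => simp [pr_zero_right]
  | insert a S ha ih => rw [Finset.sum_insert ha, Finset.sum_insert ha, pr_add_right, ih]

theorem pr_fsum {ι : Type} (f : ℕ →₀ ℚ) (S : Finset ι) (x : ι → (ℕ →₀ ℝ)) :
    pr f (∑ k ∈ S, x k : ℕ →₀ ℝ) = ∑ k ∈ S, pr f (x k) := by
  rw [← pr_sum_right]
  congr 1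
  ext a
  simp [Finsupp.finsetSum_apply]

theorem pr_add_left (f g : ℕ →₀ ℚ) (x : ℕ → ℝ) : pr (f + g) x = pr f x + pr g x := by
  classical
  rw [pr_eq (f + g) x (S := f.support ∪ g.support) Finsupp.support_add,
    pr_eq f x (S := f.support ∪ g.support) Finset.subset_union_left,
    pr_eq g x (S := f.support ∪ g.support) Finset.subset_union_right, ← Finset.sum_add_distrib]
  exact Finset.sum_congr rfl (fun a _ => by push_cast [Finsupp.add_apply]; ring)

theorem pr_smul_left (c : ℚ) (f : ℕ →₀ ℚ) (x : ℕ → ℝ) : pr (c • f) x = c * pr f x := by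
  rw [pr_eq (c • f) x (S := f.support) Finsupp.support_smul, pr, Finset.mul_sum]
  exact Finset.sum_congr rfl (fun a _ => by
    rw [Finsupp.smul_apply, smul_eq_mul]; push_cast; ring)

theorem pr_zero_left (x : ℕ → ℝ) : pr 0 x = 0 := by simp [pr]

theorem pr_neg_left (f : ℕ →₀ ℚ) (x : ℕ → ℝ) : pr (-f) x = -pr f x := by
  have := pr_smul_left (-1) f x
  simpa using this

theorem pr_sum_left {ι : Type} (S : Finset ι) (f : ι → (ℕ →₀ ℚ)) (x : ℕ → ℝ) :
    pr (∑ k ∈ S, f k) x = ∑ k ∈ S, pr (f k) x := by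
  classical
  induction S using Finset.induction_on with
  | empty => simp [pr_zero_left]
  | insert a S ha ih => rw [Finset.sum_insert ha, Finset.sum_insert ha, pr_add_left, ih]

theorem pr_single (a : ℕ) (s : ℚ) (x : ℕ → ℝ) : pr (Finsupp.single a s) x = s * x a := by
  rw [pr_eq _ x (S := {a}) Finsupp.support_single_subset]
  simp

theorem pr_th (θ : ℕ → ℚ) (f : ℕ →₀ ℚ) (x : ℕ → ℝ) :
    pr (th θ f) x = pr f (fun a => (θ a : ℝ) * x a) := by
  rw [pr_eq _ x (S := f.support) (th_support θ f)]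
  exact Finset.sum_congr rfl (fun a _ => by rw [th_apply]; push_cast; ring)

/-- no common coordinates -/
theorem pr_eq_zero {f : ℕ →₀ ℚ} {x : ℕ → ℝ} (h : ∀ a ∈ f.support, x a = 0) : pr f x = 0 :=
  Finset.sum_eq_zero (fun a ha => by rw [h a ha, mul_zero])

theorem abs_pr_le {P : Par} {f : ℕ →₀ ℚ} (h : InK P f) (x : ℕ →₀ ℝ) :
    |pr f x| ≤ ∑ a ∈ x.support, |x a| := by
  obtain ⟨w, hw⟩ := h
  rw [pr_eq' f x (le_refl _)]
  refine le_trans (Finset.abs_sum_le_sum_abs _ _) (Finset.sum_le_sum (fun a _ => ?_))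
  rw [abs_mul]
  have : |(f a : ℝ)| ≤ 1 := by
    rw [← Rat.cast_abs]
    exact_mod_cast hw.coord.1 a
  exact mul_le_of_le_one_left (abs_nonneg _) this

theorem abs_pr_le_weight {P : Par} {i : ℕ} {f : ℕ →₀ ℚ} (h : KW P (some i) f) (x : ℕ →₀ ℝ) :
    |pr f x| ≤ (∑ a ∈ x.support, |x a|) / P.m i := by
  rw [pr_eq' f x (le_refl _), Finset.sum_div]
  refine le_trans (Finset.abs_sum_le_sum_abs _ _) (Finset.sum_le_sum (fun a _ => ?_))
  rw [abs_mul]
  have : |(f a : ℝ)| ≤ 1 / P.m i := by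
    rw [← Rat.cast_abs]
    have := h.coord.2 i rfl a
    have h2 : ((|f a| : ℚ) : ℝ) ≤ ((1 / (P.m i : ℚ) : ℚ) : ℝ) := by exact_mod_cast this
    simpa using h2
  calc |(f a : ℝ)| * |x a| ≤ 1 / P.m i * |x a| := mul_le_mul_of_nonneg_right this (abs_nonneg _)
    _ = |x a| / P.m i := by ring

/-! ### the lattice property -/

/-- if `|y| ≤ |x|` then every functional is on `y` at most as large as some functional with the
same weight on `x` -/
theorem KW.lattice {P : Par} {w : Option ℕ} {f : ℕ →₀ ℚ} (h : KW P w f) (x y : ℕ → ℝ)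
    (hxy : ∀ a, |y a| ≤ |x a|) : ∃ g, KW P w g ∧ g.support ⊆ f.support ∧ |pr f y| ≤ pr g x := by
  classical
  let θ : ℕ → ℚ := fun a => if 0 ≤ (f a : ℝ) * x a then 1 else -1
  have hθ : Sg θ := fun a => by by_cases h : 0 ≤ (f a : ℝ) * x a <;> simp [θ, h]
  refine ⟨GU.th θ f, h.th hθ, th_support _ _, ?_⟩
  rw [pr_th]
  unfold pr
  refine le_trans (Finset.abs_sum_le_sum_abs _ _) (Finset.sum_le_sum (fun a _ => ?_))
  have h1 : (f a : ℝ) * ((θ a : ℝ) * x a) = |(f a : ℝ) * x a| := by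
    by_cases h : 0 ≤ (f a : ℝ) * x a
    · simp [θ, h, abs_of_nonneg h]
    · push Not at h
      have h' : ¬ (0 ≤ (f a : ℝ) * x a) := not_le.mpr h
      simp only [θ, if_neg h', abs_of_neg h]
      push_cast; ring
  rw [h1, abs_mul, abs_mul]
  exact mul_le_mul_of_nonneg_left (hxy a) (abs_nonneg _)

/-! ### the norm of finitely supported vectors -/

theorem nz_bdd (x : ℕ →₀ ℝ) : BddAbove {r | ∃ f, InK P f ∧ r = |pr f x|} := by
  refine ⟨∑ a ∈ x.support, |x a|, ?_⟩
  rintro r ⟨f, hf, rfl⟩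
  exact abs_pr_le hf x

variable {P}

theorem le_nz {f : ℕ →₀ ℚ} (h : InK P f) (x : ℕ →₀ ℝ) : |pr f x| ≤ nz P x :=
  le_csSup (nz_bdd P x) ⟨f, h, rfl⟩

theorem nz_le {x : ℕ →₀ ℝ} {C : ℝ} (h : Bd P C x) : nz P x ≤ C := by
  refine csSup_le ⟨_, 0, InK.zero P, rfl⟩ ?_
  rintro r ⟨f, hf, rfl⟩
  exact h f hf

theorem Bd_nz (x : ℕ →₀ ℝ) : Bd P (nz P x) x := fun _ hf => le_nz hf x

theorem Bd_iff {x : ℕ →₀ ℝ} {C : ℝ} : Bd P C x ↔ nz P x ≤ C :=
  ⟨nz_le, fun h _ hf => le_trans (le_nz hf x) h⟩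

theorem nz_nonneg (x : ℕ →₀ ℝ) : 0 ≤ nz P x :=
  le_trans (abs_nonneg _) (le_nz (InK.zero P) x)

theorem lt_nz {x : ℕ →₀ ℝ} {c : ℝ} (h : c < nz P x) : ∃ f, InK P f ∧ c < pr f x := by
  obtain ⟨r, ⟨f, hf, rfl⟩, hr⟩ :=
    exists_lt_of_lt_csSup (s := {r | ∃ f, InK P f ∧ r = |pr f x|}) ⟨_, 0, InK.zero P, rfl⟩ h
  rcases le_or_gt 0 (pr f x) with h0 | h0
  · exact ⟨f, hf, by rwa [abs_of_nonneg h0] at hr⟩
  · exact ⟨-f, hf.neg, by rw [pr_neg_left]; rwa [abs_of_neg h0] at hr⟩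

theorem nz_smul (c : ℝ) (x : ℕ →₀ ℝ) : nz P (c • x) = |c| * nz P x := by
  have h1 : ∀ (c : ℝ) (x : ℕ →₀ ℝ), nz P (c • x) ≤ |c| * nz P x := by
    intro c x
    refine nz_le (fun f hf => ?_)
    have : pr f (c • x : ℕ →₀ ℝ) = c * pr f x := by
      rw [← pr_smul_right]; rfl
    rw [this, abs_mul]
    exact mul_le_mul_of_nonneg_left (le_nz hf x) (abs_nonneg _)
  refine le_antisymm (h1 c x) ?_
  by_cases hc : c = 0
  · subst hc; simp [nz_nonneg]
  · have h2 := h1 c⁻¹ (c • x)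
    rw [smul_smul, inv_mul_cancel₀ hc, one_smul, abs_inv] at h2
    have h3 : 0 < |c| := abs_pos.mpr hc
    calc |c| * nz P x ≤ |c| * (|c|⁻¹ * nz P (c • x)) := mul_le_mul_of_nonneg_left h2 h3.le
      _ = nz P (c • x) := by field_simp

theorem nz_add_le (x y : ℕ →₀ ℝ) : nz P (x + y) ≤ nz P x + nz P y := by
  refine nz_le (fun f hf => ?_)
  have : pr f (x + y : ℕ →₀ ℝ) = pr f x + pr f y := by rw [← pr_add_right]; rfl
  rw [this]
  exact le_trans (abs_add_le _ _) (add_le_add (le_nz hf x) (le_nz hf y))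

theorem nz_zero : nz P 0 = 0 := by
  refine le_antisymm (nz_le (fun f _ => ?_)) (nz_nonneg _)
  rw [Finsupp.coe_zero, pr_zero_right]; simp

theorem nz_sum_le {ι : Type} (S : Finset ι) (x : ι → (ℕ →₀ ℝ)) :
    nz P (∑ k ∈ S, x k) ≤ ∑ k ∈ S, nz P (x k) := by
  classical
  induction S using Finset.induction_on with
  | empty => simp [nz_zero]
  | insert a S ha ih =>
    rw [Finset.sum_insert ha, Finset.sum_insert ha]
    exact le_trans (nz_add_le _ _) (by linarith)

theorem nz_mono {x y : ℕ →₀ ℝ} (h : ∀ a, |y a| ≤ |x a|) : nz P y ≤ nz P x := by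
  refine nz_le (fun f hf => ?_)
  obtain ⟨w, hw⟩ := hf
  obtain ⟨g, hg, -, hle⟩ := hw.lattice x y h
  exact le_trans hle (le_trans (le_abs_self _) (le_nz ⟨w, hg⟩ x))

theorem coord_le_nz (x : ℕ →₀ ℝ) (a : ℕ) : |x a| ≤ nz P x := by
  have := le_nz (InK.single P a) x
  rw [pr_single] at this
  simpa using this

/-! ### the Banach space -/

section model
variable {X : Type} [NormedAddCommGroup X] [NormedSpace ℝ X] (M : Model P X)

theorem Model.ext {x y : X} (h : ∀ i, M.e' i x = M.e' i y) : x = y := by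
  have h1 := M.hs x
  have h2 := M.hs y
  simp only [h] at h1
  exact h1.unique h2

/-- the lattice property of the norm -/
theorem Model.lat {x y : X} (h : ∀ i, |M.e' i y| ≤ |M.e' i x|) : ‖y‖ ≤ ‖x‖ := by
  refine M.n3 y _ (norm_nonneg _) (fun n => le_trans (h _) (M.n1 x n)) (fun f hf => ?_)
  obtain ⟨w, hw⟩ := hf
  obtain ⟨g, hg, -, hle⟩ := hw.lattice (fun a => M.e' (Sum.inr a) x)
    (fun a => M.e' (Sum.inr a) y) (fun a => h _)
  exact le_trans hle (le_trans (le_abs_self _) (M.n2 x g ⟨w, hg⟩))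

theorem Model.e'_emb (x : ℕ →₀ ℝ) (i : ℕ ⊕ ℕ) :
    M.e' i (M.emb x) = Sum.elim (fun _ => 0) (fun a => x a) i := by
  classical
  unfold Model.emb
  rw [map_sum]
  rcases i with n | a
  · simp [M.bi]
  · simp only [map_smul, M.bi, smul_eq_mul, Sum.elim_inr, Sum.inr.injEq]
    simp only [mul_ite, mul_one, mul_zero, Finset.sum_ite_eq, Finsupp.mem_support_iff]
    by_cases h : x a = 0 <;> simp [h]

theorem Model.co_emb (x : ℕ →₀ ℝ) : M.co (M.emb x) = x := by
  funext a
  show M.e' (Sum.inr a) (M.emb x) = x a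
  rw [M.e'_emb]; rfl

theorem Model.norm_emb (x : ℕ →₀ ℝ) : ‖M.emb x‖ = nz P x := by
  refine le_antisymm ?_ ?_
  · refine M.n3 _ _ (nz_nonneg _) (fun n => ?_) (fun f hf => ?_)
    · rw [M.e'_emb]; simpa using nz_nonneg _
    · have := M.co_emb x
      unfold Model.co at this
      rw [this]; exact le_nz hf x
  · refine nz_le (fun f hf => ?_)
    have := M.n2 (M.emb x) f hf
    have h2 := M.co_emb x
    unfold Model.co at h2
    rwa [h2] at this

theorem Model.emb_single (a : ℕ) (c : ℝ) : M.emb (Finsupp.single a c) = c • M.e (Sum.inr a) := by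
  refine M.ext (fun i => ?_)
  rw [M.e'_emb, map_smul, M.bi]
  rcases i with n | b
  · simp
  · by_cases h : a = b
    · subst h; simp
    · simp [Finsupp.single_apply, h, Ne.symm h]

theorem Model.emb_add (x y : ℕ →₀ ℝ) : M.emb (x + y) = M.emb x + M.emb y := by
  refine M.ext (fun i => ?_)
  rw [map_add, M.e'_emb, M.e'_emb, M.e'_emb]
  rcases i with n | a <;> simp

theorem Model.emb_smul (c : ℝ) (x : ℕ →₀ ℝ) : M.emb (c • x) = c • M.emb x := by
  refine M.ext (fun i => ?_)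
  rw [map_smul, M.e'_emb, M.e'_emb]
  rcases i with n | a <;> simp

theorem Model.emb_zero : M.emb 0 = 0 := by
  refine M.ext (fun i => ?_)
  rw [map_zero, M.e'_emb]
  rcases i with n | a <;> simp

theorem Model.emb_sum {ι : Type} (S : Finset ι) (x : ι → (ℕ →₀ ℝ)) :
    M.emb (∑ k ∈ S, x k) = ∑ k ∈ S, M.emb (x k) := by
  classical
  induction S using Finset.induction_on with
  | empty => simp [Model.emb_zero]
  | insert a S ha ih => rw [Finset.sum_insert ha, Finset.sum_insert ha, Model.emb_add, ih]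

theorem Model.norm_e (i : ℕ ⊕ ℕ) : ‖M.e i‖ ≤ 1 := by
  refine M.n3 _ 1 zero_le_one (fun n => ?_) (fun f hf => ?_)
  · rw [M.bi]; split_ifs <;> simp
  · rcases i with n | a
    · have : (fun b => M.e' (Sum.inr b) (M.e (Sum.inl n))) = 0 := by
        funext b; rw [M.bi]; simp
      rw [this, pr_zero_right]; simp
    · have : (fun b => M.e' (Sum.inr b) (M.e (Sum.inr a))) = (Finsupp.single a (1:ℝ)) := by
        funext b; rw [M.bi]
        by_cases h : b = a
        · subst h; simp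
        · simp [Finsupp.single_apply, h, Ne.symm h]
      rw [this]
      refine le_trans (abs_pr_le hf _) ?_
      refine le_trans (Finset.sum_le_sum_of_subset_of_nonneg (Finsupp.support_single_subset)
        (fun _ _ _ => abs_nonneg _)) ?_
      simp

theorem Model.co_add (v w : X) : M.co (v + w) = M.co v + M.co w := by
  funext a; simp [Model.co]

theorem Model.co_smul (c : ℝ) (v : X) : M.co (c • v) = c • M.co v := by
  funext a; simp [Model.co]

theorem Model.abs_pr_co (v : X) {f : ℕ →₀ ℚ} (hf : InK P f) : |pr f (M.co v)| ≤ ‖v‖ :=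
  M.n2 v f hf

end model

end Pool.Agent.W58.GU
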