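import Mathlib

/-!
Project GU (MP_18b69d_an): an unconditional space of Gowers type on which every operator is diagonal up
to an operator that is small on rapidly increasing sequences. Definitions.
-/

namespace Pool.Agent.W58.GU
open Finset

/-- all elements of `A` are smaller than all elements of `B` -/
def Lt (A B : Finset ℕ) : Prop := ∀ a ∈ A, ∀ b ∈ B, a < b

/-- the parameters: weights `m`, lengths `n`, coding function `σ` -/
structure Par where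
  m : ℕ → ℕ
  n : ℕ → ℕ
  σ : List (ℕ × (ℕ →₀ ℚ)) → ℕ
  hm1 : ∀ i, i + 2 ≤ m i
  hm2 : ∀ i, m i ^ 2 ≤ m (i + 1)
  hn : ∀ i, ∃ a, 1 ≤ a ∧ (∀ i' < i, n i' ≤ a) ∧ m i ^ 2 * (3 * a) ^ (2 * m i + 1) ≤ n i
  hσ : Function.Injective σ
  hσ4 : ∀ L, σ L % 4 = 0
  hσlt : ∀ L, ∀ p ∈ L, p.1 < σ L

/-- values in `{0, 1, -1}` -/
def Sg (θ : ℕ → ℚ) : Prop := ∀ a, θ a = 0 ∨ θ a = 1 ∨ θ a = -1

/-- coordinatewise product -/
noncomputable def th (θ : ℕ → ℚ) (f : ℕ →₀ ℚ) : ℕ →₀ ℚ :=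
  Finsupp.onFinset f.support (fun a => θ a * f a) (by
    intro a h
    rw [Finsupp.mem_support_iff]
    intro h0
    apply h
    simp [h0])

/-- the norming set, with weights: `KW P (some i) f` says that `f` is a functional of weight `m i` -/
inductive KW (P : Par) : Option ℕ → (ℕ →₀ ℚ) → Prop
  | unit (a : ℕ) (s : ℚ) (hs : s = 0 ∨ s = 1 ∨ s = -1) : KW P none (Finsupp.single a s)
  | even (i d : ℕ) (f : ℕ → (ℕ →₀ ℚ)) (w : ℕ → Option ℕ) (hi : i % 2 = 0) (hd : d ≤ P.n i)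
      (hsucc : ∀ k l, k < l → l < d → Lt (f k).support (f l).support)
      (hf : ∀ k, k < d → KW P (w k) (f k)) :
      KW P (some i) ((1 / (P.m i : ℚ)) • ∑ k ∈ range d, f k)
  | odd (i d : ℕ) (f : ℕ → (ℕ →₀ ℚ)) (idx : ℕ → ℕ) (θ : ℕ → ℚ) (hi : i % 2 = 1) (hd : d ≤ P.n i)
      (hsucc : ∀ k l, k < l → l < d → Lt (f k).support (f l).support)
      (hθ : ∀ a, θ a = 0 ∨ θ a = 1 ∨ θ a = -1)
      (hpos : ∀ k, k < d → ∀ a, 0 ≤ f k a)
      (h4 : idx 0 % 4 = 2) (h0 : P.n i ^ 2 ≤ P.m (idx 0))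
      (hidx : ∀ k, idx (k + 1) = P.σ ((List.range (k + 1)).map (fun l => (idx l, f l))))
      (hf : ∀ k, k < d → KW P (some (idx k)) (f k)) :
      KW P (some i) ((1 / (P.m i : ℚ)) • ∑ k ∈ range d, th θ (f k))

/-- the norming set -/
def InK (P : Par) (f : ℕ →₀ ℚ) : Prop := ∃ w, KW P w f

/-- the action of a functional on a sequence -/
noncomputable def pr (f : ℕ →₀ ℚ) (x : ℕ → ℝ) : ℝ := ∑ a ∈ f.support, (f a : ℝ) * x a

/-- all functionals of the norming set are at most `C` on `x` -/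
def Bd (P : Par) (C : ℝ) (x : ℕ →₀ ℝ) : Prop := ∀ f, InK P f → |pr f x| ≤ C

/-- the norm of a finitely supported vector -/
noncomputable def nz (P : Par) (x : ℕ →₀ ℝ) : ℝ := sSup {r | ∃ f, InK P f ∧ r = |pr f x|}

/-- a finite family of blocks with increasing indices -/
structure Fam (P : Par) (C ε : ℝ) (E0 : Finset ℕ) (x : ℕ → (ℕ →₀ ℝ)) (j : ℕ → ℕ) : Prop where
  succ : ∀ k ∈ E0, ∀ l ∈ E0, k < l → Lt (x k).support (x l).support
  mono : ∀ k ∈ E0, ∀ l ∈ E0, k < l → j k < j l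
  r1 : ∀ k ∈ E0, Bd P C (x k)
  r2 : ∀ k ∈ E0, ∀ i < j k, ∀ f, KW P (some i) f → |pr f (x k)| ≤ C / P.m i
  r3 : ∀ k ∈ E0, ∀ l ∈ E0, k < l → ∀ i, j l ≤ i → ∀ f, KW P (some i) f → |pr f (x k)| ≤ C * ε

/-- rapidly increasing sequences -/
structure IsRIS (P : Par) (C : ℝ) (x : ℕ → (ℕ →₀ ℝ)) (j : ℕ → ℕ) : Prop where
  succ : ∀ k l, k < l → Lt (x k).support (x l).support
  mono : StrictMono j
  bd : ∀ k, Bd P C (x k)
  wt : ∀ k i, i < j k → ∀ f, KW P (some i) f → |pr f (x k)| ≤ C / P.m i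
  l1 : ∀ k : ℕ, ((k : ℝ) + 1) * ∑ a ∈ (x k).support, |x k a| ≤ P.m (j (k + 1))

/-- a vector of exact index `i` -/
structure Ex (P : Par) (C : ℝ) (i : ℕ) (x : ℕ →₀ ℝ) : Prop where
  bd : Bd P C x
  lo : ∀ i' < i, ∀ f, KW P (some i') f → |pr f x| ≤ C / P.m i'
  hi : ∀ i', i < i' → ∀ f, KW P (some i') f → |pr f x| ≤ C / P.m i

/-- The Banach space `X = c_0 + Z`, by its coordinates: `inl` are the coordinates of `c_0`, `inr`
those of the space `Z` with the norming set `K`. -/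
structure Model (P : Par) (X : Type) [NormedAddCommGroup X] [NormedSpace ℝ X] where
  e : ℕ ⊕ ℕ → X
  e' : ℕ ⊕ ℕ → (X →L[ℝ] ℝ)
  bi : ∀ i j, e' i (e j) = if i = j then (1 : ℝ) else 0
  hs : ∀ x, HasSum (fun i => e' i x • e i) x
  n1 : ∀ x n, |e' (Sum.inl n) x| ≤ ‖x‖
  n2 : ∀ x f, InK P f → |pr f (fun a => e' (Sum.inr a) x)| ≤ ‖x‖
  n3 : ∀ x (C : ℝ), 0 ≤ C → (∀ n, |e' (Sum.inl n) x| ≤ C) →
    (∀ f, InK P f → |pr f (fun a => e' (Sum.inr a) x)| ≤ C) → ‖x‖ ≤ C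

section model
variable {P : Par} {X : Type} [NormedAddCommGroup X] [NormedSpace ℝ X]

/-- the vector of `Z` with the coordinates `x` -/
noncomputable def Model.emb (M : Model P X) (x : ℕ →₀ ℝ) : X :=
  ∑ a ∈ x.support, x a • M.e (Sum.inr a)

/-- the coordinates in `Z` -/
noncomputable def Model.co (M : Model P X) (v : X) : ℕ → ℝ := fun a => M.e' (Sum.inr a) v

/-- `Q` is the coordinate projection onto the coordinates in `A` -/
def Model.IsProj (M : Model P X) (A : Set (ℕ ⊕ ℕ)) (Q : X →L[ℝ] X) : Prop :=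
  ∀ i x, (i ∈ A → M.e' i (Q x) = M.e' i x) ∧ (i ∉ A → M.e' i (Q x) = 0)

end model

/-- the coordinates `n` of `c_0` in `A` -/
def cL (A : Set ℕ) : Set (ℕ ⊕ ℕ) := {i | ∃ a ∈ A, i = Sum.inl a}

/-- the coordinates `a ≥ N` of `Z` -/
def cR (N : ℕ) : Set (ℕ ⊕ ℕ) := {i | ∃ a, N ≤ a ∧ i = Sum.inr a}

end Pool.Agent.W58.GU
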