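import Pool.Agent.W58.GU.Stm

/-!
Project GU: simple facts on rapidly increasing sequences.
-/

namespace Pool.Agent.W58.GU
open Finset Filter Topology

theorem rst_support {R : Type} [Zero R] (A : Set ℕ) (f : ℕ →₀ R) :
    (rst A f).support ⊆ f.support := by
  classical
  intro a ha
  unfold rst at ha
  rw [Finsupp.support_filter] at ha
  exact (Finset.mem_filter.mp ha).1

theorem rst_apply_le (A : Set ℕ) (x : ℕ →₀ ℝ) (a : ℕ) : |rst A x a| ≤ |x a| := by
  classical
  unfold rst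
  by_cases h : a ∈ A
  · rw [Finsupp.filter_apply_pos _ _ h]
  · rw [Finsupp.filter_apply_neg _ _ h]; simp

theorem pr_rst (A : Set ℕ) (f : ℕ →₀ ℚ) (x : ℕ →₀ ℝ) : pr f (rst A x) = pr (rst A f) x := by
  classical
  rw [pr_eq (rst A f) x (S := f.support) (rst_support A f)]
  unfold pr
  refine Finset.sum_congr rfl (fun a _ => ?_)
  unfold rst
  by_cases h : a ∈ A
  · rw [Finsupp.filter_apply_pos _ _ h, Finsupp.filter_apply_pos _ _ h]
  · rw [Finsupp.filter_apply_neg _ _ h, Finsupp.filter_apply_neg _ _ h]; simp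

theorem rf : S_RF := by
  intro P C x j hC h r hr E hE
  refine ⟨fun k _ l _ hkl => h.succ k l hkl, fun k _ l _ hkl => h.mono hkl, fun k _ => h.bd k,
    fun k _ i hi f hf => h.wt k i hi f hf, ?_⟩
  intro k hk l hl hkl i hi f hf
  have h1 := abs_pr_le_weight hf (x k)
  have h2 := h.l1 k
  have hk1 : (r : ℝ) ≤ k := by exact_mod_cast hE k hk
  have hr1 : (1 : ℝ) ≤ r := by exact_mod_cast hr
  have hji : j (k + 1) ≤ i := le_trans (h.mono.monotone (by omega)) hi
  have hm : (P.m (j (k + 1)) : ℝ) ≤ P.m i := by exact_mod_cast P.m_mono.monotone hji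
  have hmpos : (0 : ℝ) < P.m i := by exact_mod_cast P.m_pos i
  set s := ∑ a ∈ (x k).support, |x k a| with hs
  have hs0 : 0 ≤ s := Finset.sum_nonneg (fun _ _ => abs_nonneg _)
  have h3 : s * (r : ℝ) ≤ P.m i := by nlinarith
  have h4 : s / P.m i ≤ 1 / r := by
    rw [div_le_div_iff₀ hmpos (by linarith)]
    linarith
  have h5 : 1 / (r : ℝ) ≤ C * (1 / r) := by
    have : (0 : ℝ) < 1 / r := by positivity
    nlinarith
  linarith

theorem rsub : S_RSUB := by
  intro P C x j h φ hφ A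
  refine ⟨?_, fun k l hkl => h.mono (hφ hkl), ?_, ?_, ?_⟩
  · intro k l hkl
    exact (h.succ (φ k) (φ l) (hφ hkl)).mono (rst_support _ _) (rst_support _ _)
  · intro k f hf
    rw [pr_rst]
    exact h.bd (φ k) _ (hf.rst (A k))
  · intro k i hi f hf
    show |pr f (rst (A k) (x (φ k)))| ≤ _
    rw [pr_rst]
    exact h.wt (φ k) i hi _ (hf.rst (A k))
  · intro k
    have h1 := h.l1 (φ k)
    have h2 : ∑ a ∈ (rst (A k) (x (φ k))).support, |rst (A k) (x (φ k)) a| ≤
        ∑ a ∈ (x (φ k)).support, |x (φ k) a| := by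
      refine le_trans (Finset.sum_le_sum (fun a _ => rst_apply_le (A k) (x (φ k)) a)) ?_
      exact Finset.sum_le_sum_of_subset_of_nonneg (rst_support _ _) (fun _ _ _ => abs_nonneg _)
    have h3 : (P.m (j (φ k + 1)) : ℝ) ≤ P.m (j (φ (k + 1))) := by
      have : φ k + 1 ≤ φ (k + 1) := hφ (Nat.lt_succ_self k)
      exact_mod_cast P.m_mono.monotone (h.mono.monotone this)
    have h4 : (k : ℝ) ≤ φ k := by exact_mod_cast hφ.id_le k
    have h5 : 0 ≤ ∑ a ∈ (x (φ k)).support, |x (φ k) a| :=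
      Finset.sum_nonneg (fun _ _ => abs_nonneg _)
    have h6 : (0 : ℝ) ≤ k := by positivity
    calc ((k : ℝ) + 1) * ∑ a ∈ (rst (A k) (x (φ k))).support, |rst (A k) (x (φ k)) a|
        ≤ ((k : ℝ) + 1) * ∑ a ∈ (x (φ k)).support, |x (φ k) a| :=
          mul_le_mul_of_nonneg_left h2 (by linarith)
      _ ≤ ((φ k : ℝ) + 1) * ∑ a ∈ (x (φ k)).support, |x (φ k) a| :=
          mul_le_mul_of_nonneg_right (by linarith) h5
      _ ≤ P.m (j (φ k + 1)) := h1
      _ ≤ P.m (j (φ (k + 1))) := h3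

theorem rst_univ (x : ℕ →₀ ℝ) : rst Set.univ x = x := by
  classical
  ext a
  unfold rst
  rw [Finsupp.filter_apply]
  simp

theorem rbas : S_RBAS := by
  intro P
  have hs : ∀ k : ℕ, (Finsupp.single k (1:ℝ)).support = {k} := fun k =>
    Finsupp.support_single k one_ne_zero
  have hpr : ∀ (k : ℕ) (f : ℕ →₀ ℚ), pr f (Finsupp.single k (1:ℝ)) = f k := by
    intro k f
    rw [pr_eq' f _ (S := {k}) (by rw [hs])]
    simp
  refine ⟨?_, strictMono_id, ?_, ?_, ?_⟩
  · intro k l hkl a ha b hb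
    simp only [hs, Finset.mem_singleton] at ha hb
    omega
  · rintro k f ⟨w, hf⟩
    rw [hpr, ← Rat.cast_abs]
    exact_mod_cast hf.coord.1 k
  · intro k i _ f hf
    show |pr f (Finsupp.single k (1:ℝ))| ≤ _
    rw [hpr, ← Rat.cast_abs]
    have h2 : ((|f k| : ℚ) : ℝ) ≤ ((1 / (P.m i : ℚ) : ℚ) : ℝ) := by
      exact_mod_cast hf.coord.2 i rfl k
    simpa using h2
  · intro k
    have h1 : (k : ℝ) + 3 ≤ P.m (k + 1) := by
      have := P.hm1 (k + 1)
      have h2 : k + 3 ≤ P.m (k + 1) := by omega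
      exact_mod_cast h2
    rw [hs]
    simp
    linarith

end Pool.Agent.W58.GU
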