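import Pool.Agent.W58.GU.Basic

/-!
Project GU (MP_18b69d_an, frozen S03946): exact statements of the parts.
-/

namespace Pool.Agent.W58.GU
open Finset Filter Topology

/-! ### part 1: the norming set -/

/-- parameters exist -/
def S_PAR : Prop := Nonempty Par

/-- splitting a block sequence along a successive family of functionals -/
def S_SPLIT : Prop := ∀ (d : ℕ) (g : ℕ → (ℕ →₀ ℚ)) (E : Finset ℕ) (x : ℕ → (ℕ →₀ ℝ)),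
  (∀ k l, k < l → l < d → Lt (g k).support (g l).support) →
  (∀ k ∈ E, ∀ l ∈ E, k < l → Lt (x k).support (x l).support) →
  ∃ (E' : Finset ℕ) (F : ℕ → Finset ℕ), E' ⊆ E ∧ E'.card ≤ d ∧
    (∀ l, l < d → F l ⊆ E \ E') ∧ (∀ l l', l < d → l' < d → l ≠ l' → Disjoint (F l) (F l')) ∧
    pr (∑ l ∈ range d, g l) (∑ k ∈ E, x k : ℕ →₀ ℝ) =
      ∑ k ∈ E', pr (∑ l ∈ range d, g l) (x k) +
      ∑ l ∈ range d, pr (g l) (∑ k ∈ F l, x k : ℕ →₀ ℝ)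

/-- one step of the basic inequality -/
def S_STEP : Prop := ∀ (P : Par) (C ε : ℝ) (E0 : Finset ℕ) (x : ℕ → (ℕ →₀ ℝ)) (j : ℕ → ℕ),
  0 ≤ C → 0 ≤ ε → Fam P C ε E0 x j → ∀ (B p : ℝ), 1 ≤ B → 0 ≤ p →
  (∀ f, InK P f → ∀ E ⊆ E0,
    |pr f (∑ k ∈ E, x k : ℕ →₀ ℝ)| ≤ C * (B + p * E.card + ε * E.card)) →
  ∀ (nn i : ℕ), 1 ≤ nn → P.n i ≤ nn → ∀ f, KW P (some i) f → ∀ E ⊆ E0,
    |pr f (∑ k ∈ E, x k : ℕ →₀ ℝ)| ≤ C * (3 * nn * B + p / P.m i * E.card + ε * E.card)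

/-- functionals of a given weight on sums of a family -/
def S_HI : Prop := ∀ (P : Par) (C ε : ℝ) (E0 : Finset ℕ) (x : ℕ → (ℕ →₀ ℝ)) (j : ℕ → ℕ),
  0 ≤ C → 0 ≤ ε → Fam P C ε E0 x j → ∀ (i : ℕ) (f : ℕ →₀ ℚ), KW P (some i) f → ∀ E ⊆ E0,
    |pr f (∑ k ∈ E, x k : ℕ →₀ ℝ)| ≤ C * (1 + 1 / P.m i * E.card + ε * E.card)

/-- the basic inequality -/
def S_BI : Prop := ∀ (P : Par) (C ε : ℝ) (E0 : Finset ℕ) (x : ℕ → (ℕ →₀ ℝ)) (j : ℕ → ℕ),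
  0 ≤ C → 0 ≤ ε → Fam P C ε E0 x j → ∀ (J nn : ℕ) (q : ℝ), 1 ≤ nn → (∀ i < J, P.n i ≤ nn) →
  0 ≤ q →
  (∀ i, J ≤ i → ∀ f, KW P (some i) f → ∀ E ⊆ E0,
    |pr f (∑ k ∈ E, x k : ℕ →₀ ℝ)| ≤ C * (1 + q * E.card + ε * E.card)) →
  ∀ (s : ℕ) (f : ℕ →₀ ℚ), InK P f → ∀ E ⊆ E0,
    |pr f (∑ k ∈ E, x k : ℕ →₀ ℝ)| ≤
      C * ((3 * nn : ℝ) ^ s + max ((1 / 2 : ℝ) ^ s) q * E.card + ε * E.card)

/-- averages of rapidly increasing families are exact vectors -/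
def S_AVG : Prop := ∀ (P : Par) (C ε : ℝ) (E : Finset ℕ) (x : ℕ → (ℕ →₀ ℝ)) (j : ℕ → ℕ),
  0 ≤ C → 0 ≤ ε → Fam P C ε E x j → ∀ i, E.card = P.n i → ε ≤ 1 / P.n i →
  Ex P (3 * C) i (((P.m i : ℝ) / P.n i) • ∑ k ∈ E, x k)

/-- sums of dependent sequences are small -/
def S_DEP : Prop := ∀ (P : Par) (C : ℝ), 1 ≤ C → ∀ J, J % 2 = 1 →
  ∀ (x : ℕ → (ℕ →₀ ℝ)) (f : ℕ → (ℕ →₀ ℚ)) (idx N : ℕ → ℕ), Monotone N →
  (∀ k, k < P.n J → (∀ a ∈ (x k).support, N k ≤ a ∧ a < N (k + 1)) ∧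
    (∀ a ∈ (f k).support, N k ≤ a ∧ a < N (k + 1)) ∧
    Disjoint (f k).support (x k).support ∧ Ex P C (idx k) (x k)) →
  idx 0 % 4 = 2 → P.n J ^ 2 ≤ P.m (idx 0) →
  (∀ k, idx (k + 1) = P.σ ((List.range (k + 1)).map (fun l => (idx l, f l)))) →
  Bd P (3 * C * P.n J / (P.m J : ℝ) ^ 2) (∑ k ∈ range (P.n J), x k)

/-- averages of long block families -/
def S_L7 : Prop := ∀ (P : Par) (C : ℝ) (w : ℕ → (ℕ →₀ ℝ)) (r : ℕ), 0 ≤ C →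
  (∀ k l, k < l → l < r → Lt (w k).support (w l).support) → (∀ l, l < r → Bd P C (w l)) →
  ∀ i, P.m i * P.n i ≤ r → ∀ f, KW P (some i) f →
    |pr f (((1 : ℝ) / r) • ∑ l ∈ range r, w l : ℕ →₀ ℝ)| ≤ 2 * C / P.m i

/-- averages with constant two exist in every block subspace -/
def S_L6 : Prop := ∀ (P : Par) (v : ℕ → (ℕ →₀ ℝ)),
  (∀ k l, k < l → Lt (v k).support (v l).support) → (∀ k, nz P (v k) = 1) →
  ∀ (r N0 : ℕ), 1 ≤ r → ∃ (w c : ℕ → (ℕ →₀ ℝ)),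
    (∀ l, l < r → w l = ∑ k ∈ (c l).support, c l k • v k) ∧
    (∀ l, l < r → ∀ k ∈ (c l).support, N0 ≤ k) ∧
    (∀ l l', l < l' → l' < r → Lt (c l).support (c l').support) ∧
    (∀ l, l < r → Bd P 2 (w l)) ∧ nz P (((1 : ℝ) / r) • ∑ l ∈ range r, w l) = 1

/-- every block subspace contains a rapidly increasing sequence -/
def S_BLK : Prop := ∀ (P : Par) (v : ℕ → (ℕ →₀ ℝ)),
  (∀ k l, k < l → Lt (v k).support (v l).support) → (∀ k, nz P (v k) = 1) →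
  ∃ (y c : ℕ → (ℕ →₀ ℝ)) (j : ℕ → ℕ), IsRIS P 4 y j ∧ (∀ k, nz P (y k) = 1) ∧
    ∀ k, y k = ∑ l ∈ (c k).support, c k l • v l

/-! ### simple facts on rapidly increasing sequences -/

/-- finite parts of a rapidly increasing sequence -/
def S_RF : Prop := ∀ (P : Par) (C : ℝ) (x : ℕ → (ℕ →₀ ℝ)) (j : ℕ → ℕ), 1 ≤ C → IsRIS P C x j →
  ∀ (r : ℕ), 1 ≤ r → ∀ E : Finset ℕ, (∀ k ∈ E, r ≤ k) → Fam P C (1 / (r : ℝ)) E x j

/-- subsequences and restrictions of a rapidly increasing sequence -/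
def S_RSUB : Prop := ∀ (P : Par) (C : ℝ) (x : ℕ → (ℕ →₀ ℝ)) (j : ℕ → ℕ), IsRIS P C x j →
  ∀ (φ : ℕ → ℕ), StrictMono φ → ∀ A : ℕ → Set ℕ,
    IsRIS P C (fun k => rst (A k) (x (φ k))) (fun k => j (φ k))

/-- the unit vectors are a rapidly increasing sequence -/
def S_RBAS : Prop := ∀ (P : Par), IsRIS P 1 (fun k => Finsupp.single k 1) (fun k => k)

/-! ### part 2: the Banach space -/

/-- the space exists -/
def S_MOD : Prop := ∀ P : Par, ∃ (X : Type) (_ : NormedAddCommGroup X) (_ : NormedSpace ℝ X)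
  (_ : CompleteSpace X), Nonempty (Model P X)

/-- multipliers -/
def S_MUL : Prop := ∀ (P : Par) (X : Type) [NormedAddCommGroup X] [NormedSpace ℝ X]
  [CompleteSpace X] (M : Model P X) (d : ℕ ⊕ ℕ → ℝ), (∀ i, |d i| ≤ 1) →
  ∃ D : X →L[ℝ] X, (∀ x, ‖D x‖ ≤ ‖x‖) ∧ ∀ i x, M.e' i (D x) = d i * M.e' i x

/-- functionals are small on the tails of `Z` -/
def S_SHR : Prop := ∀ (P : Par) (X : Type) [NormedAddCommGroup X] [NormedSpace ℝ X]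
  (M : Model P X) (φ : X →L[ℝ] ℝ) (η : ℝ), 0 < η →
  ∃ N : ℕ, ∀ x : ℕ →₀ ℝ, (∀ a ∈ x.support, N ≤ a) → Bd P 1 x → |φ (M.emb x)| ≤ η

/-- a quarter of the off-diagonal entries -/
def S_CUT : Prop := ∀ (G S : Finset ℕ) (B : ℕ → ℕ → ℝ) (δ : ℝ), 0 < δ → (∀ a, B a a = 0) →
  δ < ∑ a ∈ G, ∑ b ∈ S, B a b →
  ∃ A ⊆ S, ∃ G' ⊆ G \ A, δ / 8 < ∑ a ∈ G', ∑ b ∈ A, B a b

/-- selection of a subsequence with small cross terms -/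
def S_SEL : Prop := ∀ (P : Par) (X : Type) [NormedAddCommGroup X] [NormedSpace ℝ X]
  (M : Model P X) (T : X →L[ℝ] X) (x : ℕ → (ℕ →₀ ℝ)) (g : ℕ → (ℕ →₀ ℚ)) (δ C : ℝ), 0 < δ →
  (∀ k l, k < l → Lt (x k).support (x l).support) → (∀ k, Bd P C (x k)) →
  (∀ k, InK P (g k)) → (∀ k, δ < pr (g k) (M.co (T (M.emb (x k))))) →
  (∀ k, Disjoint (g k).support (x k).support) → ∀ ε : ℝ, 0 < ε →
  ∃ (φ N : ℕ → ℕ) (f : ℕ → (ℕ →₀ ℚ)), StrictMono φ ∧ Monotone N ∧ ∀ k, InK P (f k) ∧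
    (∀ a ∈ (f k).support, N k ≤ a ∧ a < N (k + 1)) ∧
    (∀ a ∈ (x (φ k)).support, N k ≤ a ∧ a < N (k + 1)) ∧
    Disjoint (f k).support (x (φ k)).support ∧
    δ - ε ≤ pr (f k) (M.co (T (M.emb (x (φ k))))) ∧
    ∀ l, l ≠ k → |pr (f k) (M.co (T (M.emb (x (φ l)))))| ≤ ε / 2 ^ (k + l)

/-- no operator maps a rapidly increasing sequence to vectors with large disjoint parts -/
def S_SPEC : Prop := ∀ (P : Par) (X : Type) [NormedAddCommGroup X] [NormedSpace ℝ X]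
  (M : Model P X) (T : X →L[ℝ] X) (C : ℝ) (x : ℕ → (ℕ →₀ ℝ)) (j N : ℕ → ℕ)
  (f : ℕ → (ℕ →₀ ℚ)) (δ : ℝ), 1 ≤ C → 0 < δ → IsRIS P C x j → Monotone N →
  (∀ k, InK P (f k) ∧ (∀ a ∈ (f k).support, N k ≤ a ∧ a < N (k + 1)) ∧
    (∀ a ∈ (x k).support, N k ≤ a ∧ a < N (k + 1)) ∧ Disjoint (f k).support (x k).support ∧
    δ ≤ pr (f k) (M.co (T (M.emb (x k)))) ∧
    ∀ l, l ≠ k → |pr (f k) (M.co (T (M.emb (x l))))| ≤ δ / 8 / 2 ^ (k + l)) → False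

/-- operators with zero diagonal are small on rapidly increasing sequences -/
def S_OPR : Prop := ∀ (P : Par) (X : Type) [NormedAddCommGroup X] [NormedSpace ℝ X]
  (M : Model P X) (T : X →L[ℝ] X), (∀ a, M.e' (Sum.inr a) (T (M.e (Sum.inr a))) = 0) →
  ∀ (C : ℝ) (x : ℕ → (ℕ →₀ ℝ)) (j : ℕ → ℕ), 1 ≤ C → IsRIS P C x j → ∀ δ : ℝ, 0 < δ →
  ∃ k0, ∀ k, k0 ≤ k → ∀ f, InK P f → |pr f (M.co (T (M.emb (x k))))| ≤ δ

/-- operators from `c_0` to `Z` are small on null sequences -/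
def S_CZ : Prop := ∀ (P : Par) (X : Type) [NormedAddCommGroup X] [NormedSpace ℝ X]
  (M : Model P X) (T : X →L[ℝ] X) (h : ℕ → X), (∀ k, ‖h k‖ ≤ 1) →
  (∀ k a, M.e' (Sum.inr a) (h k) = 0) →
  (∀ a, Tendsto (fun k => M.e' (Sum.inl a) (h k)) atTop (𝓝 0)) → ∀ δ : ℝ, 0 < δ →
  ∃ k0, ∀ k, k0 ≤ k → ∀ f, InK P f → |pr f (M.co (T (h k)))| ≤ δ

/-- the square of `X` is not complemented in `X` -/
def S_NSQ : Prop := ∀ (P : Par) (X : Type) [NormedAddCommGroup X] [NormedSpace ℝ X]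
  [CompleteSpace X] (_ : Model P X),
  ¬ ∃ (V : (X × X) →L[ℝ] X) (U : X →L[ℝ] (X × X)), U.comp V = ContinuousLinearMap.id ℝ (X × X)

/-! ### part 3: the factorization property -/

/-- lower bound on a tail of `Z` -/
def S_LOW : Prop := ∀ (P : Par) (X : Type) [NormedAddCommGroup X] [NormedSpace ℝ X]
  [CompleteSpace X] (M : Model P X) (T : X →L[ℝ] X) (δ : ℝ), 0 < δ →
  (∀ a, δ ≤ |M.e' (Sum.inr a) (T (M.e (Sum.inr a)))|) →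
  ∃ (N : ℕ) (c : ℝ), 0 < c ∧ ∀ t : ℝ, 0 ≤ t → t ≤ 1 → ∀ x : ℕ →₀ ℝ, (∀ a ∈ x.support, N ≤ a) →
    ∀ C : ℝ, (∀ f, InK P f → (∀ a ∈ f.support, N ≤ a) →
      |pr f (fun a => (1 - t) * (M.e' (Sum.inr a) (T (M.e (Sum.inr a)))) * x a +
        t * M.co (T (M.emb x)) a)| ≤ C) → c * nz P x ≤ C

/-- method of continuity -/
def S_CONT : Prop := ∀ (X : Type) [NormedAddCommGroup X] [NormedSpace ℝ X] [CompleteSpace X]
  (A B : X →L[ℝ] X) (c : ℝ), 0 < c → IsUnit A →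
  (∀ t : ℝ, 0 ≤ t → t ≤ 1 → ∀ x, c * ‖x‖ ≤ ‖(1 - t) • A x + t • B x‖) → IsUnit B

/-- operators with large diagonal are invertible on a tail of `Z` -/
def S_TI : Prop := ∀ (P : Par) (X : Type) [NormedAddCommGroup X] [NormedSpace ℝ X]
  [CompleteSpace X] (M : Model P X) (T : X →L[ℝ] X) (δ : ℝ), 0 < δ →
  (∀ a, δ ≤ |M.e' (Sum.inr a) (T (M.e (Sum.inr a)))|) →
  ∃ N : ℕ, ∀ Q : X →L[ℝ] X, M.IsProj (cR N) Q →
    ∃ G : X →L[ℝ] X, G.comp Q = G ∧ Q.comp G = G ∧ G.comp (T.comp Q) = Q ∧ Q.comp (T.comp G) = Q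

/-- operators with large diagonal are invertible on some infinite part of `c_0` -/
def S_CC : Prop := ∀ (P : Par) (X : Type) [NormedAddCommGroup X] [NormedSpace ℝ X]
  [CompleteSpace X] (M : Model P X) (S : X →L[ℝ] X) (δ : ℝ) (n0 : ℕ), 0 < δ →
  (∀ n, n0 ≤ n → δ ≤ |M.e' (Sum.inl n) (S (M.e (Sum.inl n)))|) →
  ∃ A : Set ℕ, A.Infinite ∧ ∀ Q : X →L[ℝ] X, M.IsProj (cL A) Q →
    ∃ H : X →L[ℝ] X, H.comp Q = H ∧ Q.comp H = H ∧ H.comp (S.comp Q) = Q ∧ Q.comp (S.comp H) = Q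

/-- `X` is isomorphic to the part of `X` on an infinite part of `c_0` and a tail of `Z` -/
def S_ABS : Prop := ∀ (P : Par) (X : Type) [NormedAddCommGroup X] [NormedSpace ℝ X]
  [CompleteSpace X] (M : Model P X) (A : Set ℕ) (N : ℕ), A.Infinite →
  ∀ Q : X →L[ℝ] X, M.IsProj (cL A ∪ cR N) Q →
  ∃ R S : X →L[ℝ] X, S.comp (Q.comp R) = ContinuousLinearMap.id ℝ X

/-- the factorization property of `X` -/
def S_FP : Prop := ∀ (P : Par) (X : Type) [NormedAddCommGroup X] [NormedSpace ℝ X]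
  [CompleteSpace X] (M : Model P X) (T : X →L[ℝ] X),
  (∃ δ : ℝ, 0 < δ ∧ ∀ i, δ ≤ |M.e' i (T (M.e i))|) →
  ∃ A B : X →L[ℝ] X, A.comp (T.comp B) = ContinuousLinearMap.id ℝ X

end Pool.Agent.W58.GU
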